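import Pool.Agent.Helper47.CP.Defs

set_option autoImplicit false

namespace Pool.Agent.Helper47.CP

open Set Topology Cardinal TopologicalSpace

/-! ### B: general -/
theorem sdr {ι : Type} [Countable ι] (L : ι → Set ℕ) (hL : ∀ i, (L i).Infinite) :
    ∃ j : ι → ℕ, Function.Injective j ∧ ∀ i, j i ∈ L i := by
  classical
  obtain ⟨c, hc⟩ := exists_injective_nat ι
  have hex : ∀ n p : ℕ, ∃ q, p < q ∧ ∀ i, c i = n → q ∈ L i := by
    intro n p
    by_cases h : ∃ i, c i = n
    · obtain ⟨i, hi⟩ := h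
      obtain ⟨q, hq, hpq⟩ := (hL i).exists_gt p
      refine ⟨q, hpq, fun i' hi' => ?_⟩
      rwa [hc (hi'.trans hi.symm)]
    · exact ⟨p + 1, by omega, fun i hi => absurd ⟨i, hi⟩ h⟩
  choose q hq1 hq2 using hex
  let s : ℕ → ℕ := fun n => Nat.rec (q 0 0) (fun n p => q (n + 1) p) n
  have hs : StrictMono s := strictMono_nat_of_lt_succ fun n => hq1 _ _
  have hs2 : ∀ n i, c i = n → s n ∈ L i := by
    intro n
    cases n with
    | zero => exact hq2 0 0
    | succ n => exact hq2 (n + 1) _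
  exact ⟨fun i => s (c i), fun a b h => hc (hs.injective h), fun i => hs2 _ i rfl⟩

theorem exists_rec {V : Type} (Q : ∀ α : Om, (Iio α → V) → V → Prop)
    (h : ∀ α G, ∃ y, Q α G y) : ∃ F : Om → V, ∀ α, Q α (fun β => F β) (F α) := by
  choose y hy using h
  let F : Om → V := (wellFounded_lt (α := Om)).fix fun α G => y α fun β => G β.1 β.2
  refine ⟨F, fun α => ?_⟩
  have : F α = y α fun β => F β := WellFounded.fix_eq _ _ _
  rw [this]
  exact hy _ _

theorem countable_Iio (α : Om) : (Iio α).Countable := by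
  have h : #(Iio α) < ℵ₁ := mk_Iio_toType_ord_lt α
  have h3 : ∀ c : Cardinal.{0}, c < ℵ₁ → c ≤ ℵ₀ := fun c hc => by
    rwa [← succ_aleph0, Order.lt_succ_iff] at hc
  rw [← Set.countable_coe_iff, ← mk_le_aleph0_iff]
  exact h3 _ h

theorem mk_Om : #Om = ℵ₁ := mk_ord_toType _

theorem exists_bound (s : Set Om) (hs : s.Countable) : ∃ δ, ∀ x ∈ s, x < δ := by
  by_contra hcon
  push Not at hcon
  have h1 : (univ : Set Om) ⊆ ⋃ x ∈ s, Iic x := by
    intro δ _
    obtain ⟨x, hx, h⟩ := hcon δ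
    exact mem_biUnion hx h
  have h2 : (⋃ x ∈ s, Iic x).Countable := hs.biUnion fun x _ => by
    rw [← Iio_insert]
    exact (countable_Iio x).insert _
  have h3 := h2.mono h1
  rw [Set.countable_univ_iff, ← mk_le_aleph0_iff, mk_Om] at h3
  exact absurd h3 (not_le.2 aleph0_lt_aleph_one)

theorem exists_r : ∃ r : Om → ℕ → Bool, Function.Injective r := by
  have h : #Om ≤ #(ℕ → Bool) := by
    rw [mk_Om]
    simpa using aleph_one_le_continuum
  obtain ⟨f⟩ := h
  exact ⟨f, f.injective⟩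

theorem mk_Pt_le : #Pt ≤ 𝔠 := by
  have h : #Pt ≤ #(Om × ℝ × ℝ) := by
    refine ⟨⟨fun p => (p.fib, p.pt.1, p.pt.2), ?_⟩⟩
    rintro ⟨a, b⟩ ⟨a', b'⟩ h
    simp only [Prod.mk.injEq] at h
    obtain ⟨rfl, h1, h2⟩ := h
    congr 1
    exact Prod.ext h1 h2
  refine h.trans ?_
  simp only [mk_prod, lift_id, mk_real, mk_Om]
  rw [continuum_mul_self]
  exact (mul_le_mul' aleph_one_le_continuum le_rfl).trans continuum_mul_self.le

theorem exists_enum (CH : (ℵ₁ : Cardinal.{0}) = 𝔠) : ∃ E : ∀ m : ℕ, Om → Set (Fin m → Pt), ∀ (m : ℕ)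
    (A : Set (Fin m → Pt)), A.Countable → ∃ ζ, E m ζ = A := by
  have key : ∀ m : ℕ, ∃ E : Om → Set (Fin m → Pt), ∀ A : Set (Fin m → Pt), A.Countable →
      ∃ ζ, E ζ = A := by
    intro m
    have h1 : #(Fin m → Pt) ≤ 𝔠 := by
      calc #(Fin m → Pt) = #Pt ^ m := by simp
        _ ≤ 𝔠 ^ m := pow_le_pow_left' mk_Pt_le m
        _ ≤ 𝔠 := by
          rcases Nat.eq_zero_or_pos m with rfl | h
          · simpa using one_le_aleph0.trans aleph0_le_continuum
          · exact power_nat_le aleph0_le_continuum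
    have h2 : #(ℕ → Option (Fin m → Pt)) ≤ #Om := by
      rw [mk_Om, CH]
      have h3 : #(Option (Fin m → Pt)) ≤ 𝔠 := by
        rw [mk_option]
        exact (add_le_add h1 (one_le_aleph0.trans aleph0_le_continuum)).trans
          continuum_add_self.le
      calc #(ℕ → Option (Fin m → Pt)) = #(Option (Fin m → Pt)) ^ ℵ₀ := by simp
        _ ≤ 𝔠 ^ ℵ₀ := power_le_power_right h3
        _ = 𝔠 := continuum_power_aleph0
    obtain ⟨g⟩ := h2
    obtain ⟨g', hg'⟩ : ∃ g' : Om → (ℕ → Option (Fin m → Pt)), Function.Surjective g' :=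
      ⟨Function.invFun g, Function.invFun_surjective g.injective⟩
    refine ⟨fun ζ => {y | ∃ n, g' ζ n = some y}, fun A hA => ?_⟩
    obtain ⟨u, hu⟩ : ∃ u : ℕ → Option (Fin m → Pt), {y | ∃ n, u n = some y} = A := by
      rcases A.eq_empty_or_nonempty with rfl | hne
      · exact ⟨fun _ => none, by simp⟩
      · obtain ⟨v, rfl⟩ := hA.exists_eq_range hne
        exact ⟨fun n => some (v n), by ext y; simp⟩
    obtain ⟨ζ, hζ⟩ := hg' u
    exact ⟨ζ, by simp only [hζ, hu]⟩
  choose E hE using key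
  exact ⟨E, hE⟩

end Pool.Agent.Helper47.CP
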