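import Pool.Agent.Helper47.CP.Plane

set_option autoImplicit false

namespace Pool.Agent.Helper47.CP

open Set Topology Cardinal TopologicalSpace

/-- the properties of the space used below -/
structure Spc (r : Om → ℕ → Bool) (E : ∀ m : ℕ, Om → Set (Fin m → Pt)) (F : Om → Pt → T)
    [TopologicalSpace Pt] : Prop where
  t35 : T35Space Pt
  diag : ∀ α t, F α ⟨α, t⟩ = t
  off : ∀ α β, α ≠ β → ∃ k, ∀ t, F α ⟨β, t⟩ ∉ N k
  cont : ∀ α, Continuous (F α)
  fibcont : ∀ α, Continuous fun t => (⟨α, t⟩ : Pt)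
  base : ∀ α t, ∀ V ∈ 𝓝 (⟨α, t⟩ : Pt), ∃ n, ∀ γ s, r γ ∈ PiNat.cylinder (r α) n →
    F α ⟨γ, s⟩ = t → (⟨γ, s⟩ : Pt) ∈ V
  hit : ∀ α, ∀ c : Code α, Active r E (fun β => F β) c →
    ∃ b ∈ cfg r E (fun β => F β) c, ∀ i ∈ c.I, F α (b i) = rho c.k (dd (c.s i))

def phi9719 (r : Om → ℕ → Bool) (F : Om → Pt → T) (x : Pt) : (ℕ → Bool) × (Om → T) :=
  (r x.fib, fun α => F α x)

theorem firstDiff9719 {x y z : ℕ → Bool} (hxz : x ≠ z)
    (hy : y ∈ PiNat.cylinder x (PiNat.firstDiff x z + 1)) :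
    y ≠ z ∧ PiNat.firstDiff y z = PiNat.firstDiff x z := by
  have h1 : y (PiNat.firstDiff x z) = x (PiNat.firstDiff x z) := hy _ (Nat.lt_succ_self _)
  have h2 := PiNat.apply_firstDiff_ne hxz
  have h3 : y (PiNat.firstDiff x z) ≠ z (PiNat.firstDiff x z) := by rw [h1]; exact h2
  have hyz : y ≠ z := fun h => h3 (congrFun h _)
  refine ⟨hyz, le_antisymm ?_ ?_⟩
  · by_contra hcon
    push Not at hcon
    exact h3 (PiNat.apply_eq_of_lt_firstDiff hcon)
  · by_contra hcon
    push Not at hcon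
    have h4 := PiNat.apply_firstDiff_ne hyz
    have h5 : y (PiNat.firstDiff y z) = x (PiNat.firstDiff y z) := hy _ (hcon.trans (Nat.lt_succ_self _))
    have h6 := PiNat.apply_eq_of_lt_firstDiff hcon
    rw [h5, h6] at h4
    exact h4 rfl

theorem local9719 (r : Om → ℕ → Bool) (hr : Function.Injective r)
    (E : ∀ m : ℕ, Om → Set (Fin m → Pt)) (F : Om → Pt → T)
    (hF : ∀ α, Good r E α (fun β => F β) (F α)) (α : Om) : ∀ β : Om, ∃ (n : ℕ) (ψ : T → T),
      Continuous ψ ∧ ∀ γ t, r γ ∈ PiNat.cylinder (r α) n → F β ⟨γ, t⟩ = ψ (F α ⟨γ, t⟩) := by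
  intro β
  induction β using WellFoundedLT.induction with
  | ind β ih =>
    by_cases hβ : β = α
    · subst hβ
      exact ⟨0, id, continuous_id, fun γ t _ => rfl⟩
    have hne : r α ≠ r β := fun h => hβ (hr h).symm
    have hfd : ∀ γ, r γ ∈ PiNat.cylinder (r α) (PiNat.firstDiff (r α) (r β) + 1) →
        γ ≠ β ∧ PiNat.firstDiff (r γ) (r β) = PiNat.firstDiff (r α) (r β) := by
      intro γ hγ
      obtain ⟨h1, h2⟩ := firstDiff9719 hne hγ
      exact ⟨fun h => h1 (by rw [h]), h2⟩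
    rcases (hF β).2.1 (PiNat.firstDiff (r α) (r β)) with h | ⟨β', k, φ, hφ, h⟩
    · refine ⟨PiNat.firstDiff (r α) (r β) + 1, fun _ => 0, continuous_const, fun γ t hγ => ?_⟩
      obtain ⟨h1, h2⟩ := hfd γ hγ
      exact h γ t h1 h2
    · obtain ⟨n', ψ', hψ', h'⟩ := ih β'.1 β'.2
      refine ⟨max (PiNat.firstDiff (r α) (r β) + 1) n', fun x => rho k (φ (ψ' x)),
        (continuous_rho k).comp (hφ.comp hψ'), fun γ t hγ => ?_⟩
      obtain ⟨h1, h2⟩ := hfd γ (PiNat.cylinder_anti _ (le_max_left _ _) hγ)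
      have h3 := h' γ t (PiNat.cylinder_anti _ (le_max_right _ _) hγ)
      rw [h γ t h1 h2]
      show rho k (φ (F β' ⟨γ, t⟩)) = _
      rw [h3]

theorem exists_spc (r : Om → ℕ → Bool) (hr : Function.Injective r)
    (E : ∀ m : ℕ, Om → Set (Fin m → Pt)) (F : Om → Pt → T)
    (hF : ∀ α, Good r E α (fun β => F β) (F α)) :
    ∃ _ : TopologicalSpace Pt, Spc r E F := by
  have hdiag : ∀ α t, F α ⟨α, t⟩ = t := fun α t => (hF α).1 t
  letI top : TopologicalSpace Pt := TopologicalSpace.induced (phi9719 r F) inferInstance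
  have hind : IsInducing (phi9719 r F) := ⟨rfl⟩
  have hinj : Function.Injective (phi9719 r F) := by
    rintro ⟨α, t⟩ ⟨β, s⟩ h
    have h1 : r α = r β := congrArg Prod.fst h
    have h2 := hr h1
    subst h2
    have h3 : F α ⟨α, t⟩ = F α ⟨α, s⟩ := congrFun (congrArg Prod.snd h) α
    rw [hdiag, hdiag] at h3
    rw [h3]
  have hcont : Continuous (phi9719 r F) := hind.continuous
  have hFc : ∀ α, Continuous (F α) := fun α =>
    (continuous_apply α).comp (continuous_snd.comp hcont)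
  refine ⟨top, ?_, hdiag, ?_, hFc, ?_, ?_, fun α c hc => (hF α).2.2 (fun γ t => hdiag γ t) c hc⟩
  · haveI : CompletelyRegularSpace Pt := hind.completelyRegularSpace
    haveI : T0Space Pt := (hinj.isEmbedding_induced).t0Space
    exact {}
  · intro α β hαβ
    rcases (hF α).2.1 (PiNat.firstDiff (r β) (r α)) with h | ⟨β', k, φ, hφ, h⟩
    · refine ⟨0, fun t => ?_⟩
      rw [h β t hαβ.symm rfl]
      exact zero_notMem 0
    · refine ⟨k, fun t => ?_⟩
      rw [h β t hαβ.symm rfl]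
      exact rho_notMem k _
  · intro α
    rw [hind.continuous_iff]
    refine Continuous.prodMk (continuous_const : Continuous fun _ : T => r α)
      (continuous_pi fun β => ?_)
    obtain ⟨n, ψ, hψ, h⟩ := local9719 r hr E F hF α β
    have h1 : (fun t => F β (⟨α, t⟩ : Pt)) = ψ := by
      funext t
      rw [h α t (PiNat.self_mem_cylinder _ _), hdiag]
    show Continuous (fun t => F β (⟨α, t⟩ : Pt))
    rw [h1]
    exact hψ
  · intro α t V hV
    set S : ℕ → Set Pt := fun n => {x | r x.fib ∈ PiNat.cylinder (r α) n ∧ F α x = t} with hS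
    have hanti : Antitone S := fun m n hmn x hx => ⟨PiNat.cylinder_anti _ hmn hx.1, hx.2⟩
    have hbasis : (⨅ n, Filter.principal (S n)).HasBasis (fun _ => True) S :=
      Filter.hasBasis_iInf_principal hanti.directed_ge
    have htend : Filter.Tendsto (phi9719 r F) (⨅ n, Filter.principal (S n))
        (𝓝 (phi9719 r F ⟨α, t⟩)) := by
      refine Filter.Tendsto.prodMk_nhds ?_ ?_
      · rw [tendsto_pi_nhds]
        intro i
        refine tendsto_const_nhds.congr' ?_
        have h1 : S (i + 1) ∈ (⨅ n, Filter.principal (S n)) := hbasis.mem_of_mem trivial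
        filter_upwards [h1] with x hx
        exact (hx.1 i (Nat.lt_succ_self i)).symm
      · rw [tendsto_pi_nhds]
        intro β
        obtain ⟨n, ψ, hψ, h⟩ := local9719 r hr E F hF α β
        refine tendsto_const_nhds.congr' ?_
        have h1 : S n ∈ (⨅ n, Filter.principal (S n)) := hbasis.mem_of_mem trivial
        filter_upwards [h1] with x hx
        have h2 := h x.fib x.pt hx.1
        have h3 : F β ⟨α, t⟩ = ψ t := by
          rw [h α t (PiNat.self_mem_cylinder _ _), hdiag]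
        rw [h3]
        have h4 : F α ⟨x.fib, x.pt⟩ = t := hx.2
        rw [h4] at h2
        exact h2.symm
    have hle : (⨅ n, Filter.principal (S n)) ≤ 𝓝 (⟨α, t⟩ : Pt) := by
      rw [hind.nhds_eq_comap]
      exact Filter.tendsto_iff_comap.mp htend
    obtain ⟨n, -, hn⟩ := hbasis.mem_iff.mp (hle hV)
    exact ⟨n, fun γ s h1 h2 => hn ⟨h1, h2⟩⟩



end Pool.Agent.Helper47.CP
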