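import Pool.Agent.Helper47.CP.Plane
import Pool.Agent.Helper47.CP.Gen
import Pool.Agent.Helper47.CP.Space

set_option autoImplicit false

namespace Pool.Agent.Helper47.CP

open Set Topology Cardinal TopologicalSpace

theorem cd_dens (r : Om → ℕ → Bool) (m : ℕ) (B : Set (Fin m → Pt)) :
    ∃ D ⊆ B, D.Countable ∧ ∀ a ∈ B, ∀ W : Fin m → Set Mt, (∀ i, IsOpen (W i)) →
      (∀ i, met r (a i) ∈ W i) → ∃ b ∈ D, ∀ i, met r (b i) ∈ W i := by
  classical
  let φ : (Fin m → Pt) → (Fin m → Mt) := fun a i => met r (a i)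
  let S : Set (Set (Fin m → Mt)) := {U | U ∈ countableBasis (Fin m → Mt) ∧ ∃ a ∈ B, φ a ∈ U}
  have hS : S.Countable := (countable_countableBasis _).mono (fun U hU => hU.1)
  have hch : ∀ U : S, ∃ a ∈ B, φ a ∈ (U : Set (Fin m → Mt)) := fun U => U.2.2
  choose g hg1 hg2 using hch
  haveI := hS.to_subtype
  refine ⟨Set.range g, ?_, Set.countable_range g, ?_⟩
  · rintro _ ⟨U, rfl⟩; exact hg1 U
  · intro a ha W hW haW
    have hopen : IsOpen (Set.pi Set.univ W) := isOpen_set_pi Set.finite_univ (fun i _ => hW i)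
    have hmem : φ a ∈ Set.pi Set.univ W := fun i _ => haW i
    obtain ⟨U, hU, haU, hUW⟩ :=
      (isBasis_countableBasis (Fin m → Mt)).exists_subset_of_mem_open hmem hopen
    refine ⟨g ⟨U, hU, a, ha, haU⟩, ⟨_, rfl⟩, fun i => ?_⟩
    exact hUW (hg2 ⟨U, hU, a, ha, haU⟩) i (Set.mem_univ i)

/-- codes of configurations -/
abbrev KK (m : ℕ) (δ : Om) : Type := (Fin m → Option (Iio δ)) × (Fin m → Fin m → Prop)

theorem KK_countable (m : ℕ) (δ : Om) : Countable (KK m δ) := by
  haveI : Countable (Iio δ) := (countable_Iio δ).to_subtype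
  infer_instance

open Classical in
/-- the code of a configuration -/
noncomputable def cd {m : ℕ} (δ : Om) (a : Fin m → Pt) : KK m δ :=
  (fun i => if h : (a i).fib < δ then some ⟨(a i).fib, h⟩ else none,
    fun i j => (a i).fib = (a j).fib)

theorem cd_eq1 {m : ℕ} {δ : Om} {a b : Fin m → Pt} (h : cd δ a = cd δ b) (i : Fin m)
    (hi : (a i).fib < δ) : (b i).fib = (a i).fib := by
  have h1 := congrFun (congrArg Prod.fst h) i
  simp only [cd, dif_pos hi] at h1
  by_cases hb : (b i).fib < δ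
  · rw [dif_pos hb] at h1
    have h2 := Option.some.inj h1
    exact (congrArg Subtype.val h2).symm
  · rw [dif_neg hb] at h1
    exact absurd h1 (by simp)

theorem cd_eq2 {m : ℕ} {δ : Om} {a b : Fin m → Pt} (h : cd δ a = cd δ b) (i j : Fin m)
    (hij : (a i).fib = (a j).fib) : (b i).fib = (b j).fib := by
  have h1 : ((a i).fib = (a j).fib) = ((b i).fib = (b j).fib) :=
    congrFun (congrFun (congrArg Prod.snd h) i) j
  rw [← h1]; exact hij

/-- the property of configurations which gives the hereditary Lindelöf property -/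
theorem conf_dense (r : Om → ℕ → Bool) (hr : Function.Injective r)
    (E : ∀ m : ℕ, Om → Set (Fin m → Pt)) (hE : ∀ (m : ℕ)
    (A : Set (Fin m → Pt)), A.Countable → ∃ ζ, E m ζ = A) (F : Om → Pt → T)
    [TopologicalSpace Pt] (h : Spc r E F) (m : ℕ) (A : Set (Fin m → Pt))
    (hA : ∀ a ∈ A, Function.Injective a) :
    ∃ A₀ ⊆ A, A₀.Countable ∧ ∀ f : Pt → ℝ, Continuous f → ∀ J : Fin m → Set ℝ,
      (∀ i, IsOpen (J i)) → ∀ a ∈ A, (∀ i, f (a i) ∈ J i) → ∃ b ∈ A₀, ∀ i, f (b i) ∈ J i := by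
  classical
  -- dense subsets for each code
  have hD : ∀ (δ : Om) (c : KK m δ), ∃ D ⊆ {a | a ∈ A ∧ cd δ a = c}, D.Countable ∧
      ∀ a ∈ {a | a ∈ A ∧ cd δ a = c}, ∀ W : Fin m → Set Mt, (∀ i, IsOpen (W i)) →
      (∀ i, met r (a i) ∈ W i) → ∃ b ∈ D, ∀ i, met r (b i) ∈ W i :=
    fun δ c => cd_dens r m _
  choose D hD1 hD2 hD3 using hD
  have hN : ∀ δ : Om, ∃ N : Om, δ < N ∧ ∀ c : KK m δ, (∃ ζ < N, E m ζ = D δ c) ∧
      ∀ b ∈ D δ c, ∀ i, (b i).fib < N := by
    intro δ
    haveI := KK_countable m δ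
    choose z hz using fun c : KK m δ => hE m (D δ c) (hD2 δ c)
    have hcount : ({δ} ∪ Set.range z ∪ ⋃ c : KK m δ, ⋃ b ∈ D δ c, Set.range (fun i => (b i).fib) :
        Set Om).Countable := by
      refine ((Set.countable_singleton δ).union (Set.countable_range z)).union ?_
      refine Set.countable_iUnion fun c => ?_
      exact (hD2 δ c).biUnion fun b _ => Set.countable_range _
    obtain ⟨N, hN⟩ := exists_bound _ hcount
    refine ⟨N, hN δ (Or.inl (Or.inl rfl)), fun c => ⟨⟨z c, hN _ (Or.inl (Or.inr ⟨c, rfl⟩)), hz c⟩, ?_⟩⟩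
    intro b hb i
    apply hN
    right
    exact Set.mem_iUnion.2 ⟨c, Set.mem_iUnion₂.2 ⟨b, hb, i, rfl⟩⟩
  choose N hN1 hN2 using hN
  obtain ⟨δ0, -⟩ := exists_bound ∅ Set.countable_empty
  let dl : ℕ → Om := fun n => Nat.rec δ0 (fun _ δ => N δ) n
  have hdl : ∀ n, dl (n + 1) = N (dl n) := fun n => rfl
  have hmono : Monotone dl := monotone_nat_of_le_succ fun n => by rw [hdl]; exact (hN1 _).le
  refine ⟨⋃ n, ⋃ c : KK m (dl n), D (dl n) c, ?_, ?_, ?_⟩
  · intro b hb
    obtain ⟨n, hn⟩ := Set.mem_iUnion.1 hb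
    obtain ⟨c, hc⟩ := Set.mem_iUnion.1 hn
    exact (hD1 _ _ hc).1
  · refine Set.countable_iUnion fun n => ?_
    haveI := KK_countable m (dl n)
    exact Set.countable_iUnion fun c => hD2 _ c
  intro f hf J hJ a ha hfa
  -- a bound for the root
  have hn0 : ∃ n0, ∀ i, (∃ n, (a i).fib < dl n) → (a i).fib < dl n0 := by
    have h1 : ∀ i, ∃ n, (∃ n, (a i).fib < dl n) → (a i).fib < dl n := by
      intro i
      rcases Classical.em (∃ n : ℕ, (a i).fib < dl n) with hi | hi
      · obtain ⟨n, hn⟩ := hi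
        exact ⟨n, fun _ => hn⟩
      · exact ⟨0, fun h => absurd h hi⟩
    choose nn hnn using h1
    refine ⟨Finset.univ.sup nn, fun i hi => (hnn i hi).trans_le (hmono (Finset.le_sup (Finset.mem_univ i)))⟩
  obtain ⟨n0, hn0⟩ := hn0
  set c := cd (dl n0) a with hc
  set DD := D (dl n0) c with hDD
  obtain ⟨⟨ζ, hζ, hEζ⟩, hfib⟩ := hN2 (dl n0) c
  rw [← hdl] at hζ
  have hfib' : ∀ b ∈ DD, ∀ i, (b i).fib < dl (n0 + 1) := by rw [hdl]; exact hfib
  have hDA : ∀ b ∈ DD, b ∈ A := fun b hb => (hD1 _ _ hb).1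
  have hDc : ∀ b ∈ DD, cd (dl n0) a = cd (dl n0) b := fun b hb => (hD1 _ _ hb).2.symm
  -- picks
  have hpick : ∀ α : Om, ∃ k : Fin 3, ∃ s : Fin m → ℕ,
      ∀ i ∈ Finset.univ.filter (fun i => (a i).fib = α), f ⟨α, rho k (dd (s i))⟩ ∈ J i := by
    intro α
    refine pick (Finset.univ.filter (fun i => (a i).fib = α)) (fun i => (a i).pt) J
      (fun i _ => hJ i) (fun t => f ⟨α, t⟩) (hf.comp (h.fibcont α)) ?_
    intro i hi
    have hi' : (a i).fib = α := (Finset.mem_filter.1 hi).2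
    subst hi'
    exact hfa i
  choose k s hks using hpick
  let q : Fin m → T := fun i => rho (k (a i).fib) (dd (s (a i).fib i))
  have hbase : ∀ i, ∃ n, ∀ γ t, r γ ∈ PiNat.cylinder (r (a i).fib) n →
      F (a i).fib ⟨γ, t⟩ = q i → f ⟨γ, t⟩ ∈ J i := by
    intro i
    have hV : f ⁻¹' (J i) ∈ 𝓝 (⟨(a i).fib, q i⟩ : Pt) := by
      apply hf.continuousAt.preimage_mem_nhds
      exact (hJ i).mem_nhds (hks (a i).fib i (Finset.mem_filter.2 ⟨Finset.mem_univ i, rfl⟩))
    obtain ⟨n, hn⟩ := h.base (a i).fib (q i) _ hV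
    exact ⟨n, fun γ t h1 h2 => hn γ t h1 h2⟩
  choose nn hnn using hbase
  set M := Finset.univ.sup nn with hM
  -- the claim
  have claim : ∀ Γ : Finset Om, (∀ α ∈ Γ, (∀ n, dl n ≤ α) ∧ ∃ i, (a i).fib = α) →
      ∀ W : Fin m → Set Mt, (∀ i, IsOpen (W i)) → (∀ i, met r (a i) ∈ W i) →
      ∃ b ∈ DD, (∀ i, met r (b i) ∈ W i) ∧ ∀ i, (a i).fib ∈ Γ → F (a i).fib (b i) = q i := by
    intro Γ
    induction Γ using Finset.induction_on_max with
    | empty =>
      intro _ W hW haW
      obtain ⟨b, hb, hbW⟩ := hD3 (dl n0) c a ⟨ha, rfl⟩ W hW haW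
      exact ⟨b, hb, hbW, fun i hi => absurd hi (Finset.notMem_empty _)⟩
    | insert α Γ hmax ih =>
      intro hΓ W hW haW
      have ih' := ih (fun β hβ => hΓ β (Finset.mem_insert_of_mem hβ))
      obtain ⟨hαd, i0, hi0⟩ := hΓ α (Finset.mem_insert_self _ _)
      have hW' : ∀ i, ∃ v ∈ countableBasis Mt, met r (a i) ∈ v ∧ v ⊆ W i := fun i =>
        (isBasis_countableBasis Mt).exists_subset_of_mem_open (haW i) (hW i)
      choose W' hW'1 hW'2 hW'3 using hW'
      have hζα : ζ < α := hζ.trans_le (hαd (n0 + 1))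
      let C : Code α :=
        { m := m
          ζ := ⟨ζ, hζα⟩
          W := fun i => ⟨W' i, hW'1 i⟩
          h := fun i => if hi : (a i).fib ∈ Γ then
            some (⟨(a i).fib, hmax _ hi⟩, k (a i).fib, s (a i).fib i) else none
          I := Finset.univ.filter (fun i => (a i).fib = α)
          k := k α
          s := s α }
      have hact : Active r E (fun β => F β) C := by
        intro n'
        obtain ⟨b, hb, hbW, hbF⟩ := ih' (fun i => W' i ∩ {x : Mt | (a i).fib = α →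
            x.1 ∈ PiNat.cylinder (r α) n'}) (by
          intro i
          refine ((isBasis_countableBasis Mt).isOpen (hW'1 i)).inter ?_
          by_cases hi : (a i).fib = α
          · simp only [hi, true_imp_iff]
            exact (PiNat.isOpen_cylinder _ _ _).preimage continuous_fst
          · simp only [hi, false_imp_iff]
            exact isOpen_univ) (by
          intro i
          refine ⟨hW'2 i, ?_⟩
          intro hi
          show r (a i).fib ∈ PiNat.cylinder (r α) n'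
          rw [hi]
          exact PiNat.self_mem_cylinder _ _)
        refine ⟨b, ⟨?_, hA b (hDA b hb), fun i => (hbW i).1, ?_⟩, ⟨(b i0).fib,
          (hfib' b hb i0).trans_le (hαd (n0 + 1))⟩, ?_, (hbW i0).2 hi0⟩
        · show b ∈ E m ζ
          rw [hEζ]; exact hb
        · intro i p hp
          have hp' : p ∈ (if hi : (a i).fib ∈ Γ then
            some ((⟨(a i).fib, hmax _ hi⟩ : Iio α), k (a i).fib, s (a i).fib i) else none) := hp
          by_cases hi : (a i).fib ∈ Γ
          · rw [dif_pos hi, Option.mem_def, Option.some.injEq] at hp'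
            subst hp'
            exact hbF i hi
          · rw [dif_neg hi] at hp'
            exact absurd hp' (by simp)
        · intro i hi
          have hi' : (a i).fib = α := (Finset.mem_filter.1 hi).2
          exact cd_eq2 (hDc b hb) i i0 (hi'.trans hi0.symm)
      obtain ⟨b, ⟨hbE, -, hbW, hbh⟩, hbI⟩ := h.hit α C hact
      have hb : b ∈ DD := by
        have : b ∈ E m ζ := hbE
        rw [hEζ] at this; exact this
      refine ⟨b, hb, fun i => hW'3 i (hbW i), ?_⟩
      intro i hi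
      rcases Finset.mem_insert.1 hi with h1 | h1
      · have h2 := hbI i (Finset.mem_filter.2 ⟨Finset.mem_univ i, h1⟩)
        show F (a i).fib (b i) = rho (k (a i).fib) (dd (s (a i).fib i))
        rw [h1]; exact h2
      · refine hbh i (⟨(a i).fib, hmax _ h1⟩, k (a i).fib, s (a i).fib i) ?_
        show _ ∈ (if hi : (a i).fib ∈ Γ then
            some ((⟨(a i).fib, hmax _ hi⟩ : Iio α), k (a i).fib, s (a i).fib i) else none)
        rw [dif_pos h1]
        rfl
  -- conclusion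
  have hfin : {α : Om | ∃ i, (∀ n, dl n ≤ (a i).fib) ∧ (a i).fib = α}.Finite :=
    (Set.finite_range (fun i => (a i).fib)).subset (by rintro α ⟨i, _, rfl⟩; exact ⟨i, rfl⟩)
  set Γ : Finset Om := hfin.toFinset with hΓ
  obtain ⟨b, hb, hbW, hbF⟩ := claim Γ (by
      intro α hα
      obtain ⟨i, hi, rfl⟩ := hfin.mem_toFinset.1 hα
      exact ⟨hi, i, rfl⟩)
    (fun i => {x : Mt | x.1 ∈ PiNat.cylinder (r (a i).fib) M ∧ f ⟨(a i).fib, x.2⟩ ∈ J i}) (by
      intro i
      refine IsOpen.inter ((PiNat.isOpen_cylinder _ _ _).preimage continuous_fst) ?_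
      exact (hJ i).preimage ((hf.comp (h.fibcont (a i).fib)).comp continuous_snd)) (by
      intro i
      exact ⟨PiNat.self_mem_cylinder _ _, hfa i⟩)
  refine ⟨b, Set.mem_iUnion.2 ⟨n0, Set.mem_iUnion.2 ⟨c, hb⟩⟩, fun i => ?_⟩
  rcases Classical.em (∃ n : ℕ, (a i).fib < dl n) with hroot | hroot
  · have h1 := cd_eq1 (hDc b hb) i (hn0 i hroot)
    have h2 := (hbW i).2
    have h3 : b i = ⟨(a i).fib, (b i).pt⟩ := by
      rw [← h1]
    rw [h3]
    exact h2
  · push Not at hroot
    have hi : (a i).fib ∈ Γ := hfin.mem_toFinset.2 ⟨i, hroot, rfl⟩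
    have h1 := hbF i hi
    have h2 := (hbW i).1
    have h3 : r (b i).fib ∈ PiNat.cylinder (r (a i).fib) (nn i) :=
      PiNat.cylinder_anti _ (Finset.le_sup (Finset.mem_univ i)) h2
    exact hnn i (b i).fib (b i).pt h3 h1



end Pool.Agent.Helper47.CP
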