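import Mathlib

set_option autoImplicit false

namespace Pool.Agent.Helper47.CP

open Set Topology Cardinal TopologicalSpace

/-- the plane -/
abbrev T := ℝ × ℝ

/-- the well-ordered set of all countable ordinals -/
abbrev Om : Type := (ℵ₁ : Cardinal.{0}).ord.ToType

/-- the underlying set of the space -/
structure Pt where
  fib : Om
  pt : T

/-- three open corners of the plane -/
def N (k : Fin 3) : Set T :=
  match k with
  | 0 => {x | 1 + |x.2| < x.1}
  | 1 => {x | x.1 < -1 - |x.2|}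
  | 2 => {x | 1 + |x.1| < x.2}

/-- retractions of the plane on the complements of the corners -/
noncomputable def rho (k : Fin 3) (x : T) : T :=
  match k with
  | 0 => (min x.1 (1 + |x.2|), x.2)
  | 1 => (max x.1 (-1 - |x.2|), x.2)
  | 2 => (x.1, min x.2 (1 + |x.1|))

/-- a point of the corner -/
noncomputable def e (k : Fin 3) : T :=
  match k with
  | 0 => (2, 0)
  | 1 => (-2, 0)
  | 2 => (0, 2)

/-- the countable dense sequence used for the values -/
noncomputable def dd : ℕ → T := denseSeq T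

/-- metric data -/
abbrev Mt := (ℕ → Bool) × T

/-- metric datum of a point -/
def met (r : Om → ℕ → Bool) (x : Pt) : Mt := (r x.fib, x.pt)

/-- Codes of the requirements for `α`. -/
structure Code (α : Om) where
  m : ℕ
  ζ : Iio α
  W : Fin m → countableBasis Mt
  h : Fin m → Option (Iio α × Fin 3 × ℕ)
  I : Finset (Fin m)
  k : Fin 3
  s : Fin m → ℕ

/-- the configurations to which the requirement refers -/
def cfg (r : Om → ℕ → Bool) (E : ∀ m : ℕ, Om → Set (Fin m → Pt)) {α : Om} (G : Iio α → Pt → T)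
    (c : Code α) : Set (Fin c.m → Pt) :=
  {b | b ∈ E c.m c.ζ ∧ Function.Injective b ∧ (∀ i, met r (b i) ∈ (c.W i : Set Mt)) ∧
    ∀ i, ∀ p ∈ c.h i, G p.1 (b i) = rho p.2.1 (dd p.2.2)}

/-- the requirement asks for something -/
def Active (r : Om → ℕ → Bool) (E : ∀ m : ℕ, Om → Set (Fin m → Pt)) {α : Om}
    (G : Iio α → Pt → T) (c : Code α) : Prop :=
  ∀ n, ∃ b ∈ cfg r E G c, ∃ γ : Iio α, (∀ i ∈ c.I, (b i).fib = γ) ∧ r γ ∈ PiNat.cylinder (r α) n

/-- the properties of `y = F α` relative to the earlier functions -/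
def Good (r : Om → ℕ → Bool) (E : ∀ m : ℕ, Om → Set (Fin m → Pt)) (α : Om)
    (G : Iio α → Pt → T) (y : Pt → T) : Prop :=
  (∀ t, y ⟨α, t⟩ = t) ∧
  (∀ j : ℕ, (∀ γ t, γ ≠ α → PiNat.firstDiff (r γ) (r α) = j → y ⟨γ, t⟩ = 0) ∨
    ∃ (β : Iio α) (k : Fin 3) (φ : T → T), Continuous φ ∧
      ∀ γ t, γ ≠ α → PiNat.firstDiff (r γ) (r α) = j → y ⟨γ, t⟩ = rho k (φ (G β ⟨γ, t⟩))) ∧
  ((∀ (γ : Iio α) t, G γ ⟨γ, t⟩ = t) → ∀ c : Code α, Active r E G c →
    ∃ b ∈ cfg r E G c, ∀ i ∈ c.I, y (b i) = rho c.k (dd (c.s i)))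

end Pool.Agent.Helper47.CP
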