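import Mathlib

set_option autoImplicit false

namespace Pool.Agent.Helper47.CP

open Set Topology Cardinal TopologicalSpace

theorem local_box {X : Type} [TopologicalSpace X] (f : {f : X → ℝ // Continuous f})
    (U : Set {f : X → ℝ // Continuous f}) (hU : IsOpen U) (hf : f ∈ U) :
    ∃ (m : ℕ) (J : Fin m → countableBasis ℝ) (a : Fin m → X), Function.Injective a ∧
      (∀ i, f.1 (a i) ∈ (J i : Set ℝ)) ∧
      {g : {f : X → ℝ // Continuous f} | ∀ i, g.1 (a i) ∈ (J i : Set ℝ)} ⊆ U := by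
  obtain ⟨V, hV, rfl⟩ := isOpen_induced_iff.1 hU
  obtain ⟨I, u, h1, h2⟩ := isOpen_pi_iff.1 hV f.1 hf
  have h3 : ∀ x : I, ∃ J : countableBasis ℝ, f.1 x ∈ (J : Set ℝ) ∧ (J : Set ℝ) ⊆ u x := by
    intro x
    obtain ⟨J, hJ, hJ1, hJ2⟩ := (isBasis_countableBasis ℝ).exists_subset_of_mem_open
      (h1 x x.2).2 (h1 x x.2).1
    exact ⟨⟨J, hJ⟩, hJ1, hJ2⟩
  choose J hJ1 hJ2 using h3
  refine ⟨I.card, fun i => J (I.equivFin.symm i), fun i => (I.equivFin.symm i).1, ?_, ?_, ?_⟩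
  · intro i j hij
    exact I.equivFin.symm.injective (Subtype.ext hij)
  · intro i
    exact hJ1 _
  · intro g hg
    apply h2
    intro x hx
    have := hg (I.equivFin ⟨x, hx⟩)
    simp only [Equiv.symm_apply_apply] at this
    exact hJ2 _ this

theorem hLind {X : Type} [TopologicalSpace X]
    (h : ∀ (m : ℕ) (A : Set (Fin m → X)), (∀ a ∈ A, Function.Injective a) →
    ∃ A₀ ⊆ A, A₀.Countable ∧ ∀ f : X → ℝ, Continuous f → ∀ J : Fin m → Set ℝ,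
      (∀ i, IsOpen (J i)) → ∀ a ∈ A, (∀ i, f (a i) ∈ J i) → ∃ b ∈ A₀, ∀ i, f (b i) ∈ J i) :
    HereditarilyLindelofSpace {f : X → ℝ // Continuous f} := by
  refine HereditarilyLindelofSpace.of_forall_isOpen fun S _ => ?_
  apply isLindelof_of_countable_subcover
  intro ι U hU hS
  let T := Σ m : ℕ, (Fin m → countableBasis ℝ)
  let A : ∀ τ : T, Set (Fin τ.1 → X) := fun τ => {a | Function.Injective a ∧
    ∃ i₀ : ι, {g : {f : X → ℝ // Continuous f} | ∀ i, g.1 (a i) ∈ (τ.2 i : Set ℝ)} ⊆ U i₀}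
  have hA : ∀ τ : T, ∃ A₀ ⊆ A τ, A₀.Countable ∧ ∀ f : X → ℝ, Continuous f →
      ∀ J : Fin τ.1 → Set ℝ,
      (∀ i, IsOpen (J i)) → ∀ a ∈ A τ, (∀ i, f (a i) ∈ J i) → ∃ b ∈ A₀, ∀ i, f (b i) ∈ J i :=
    fun τ => h τ.1 (A τ) (fun a ha => ha.1)
  choose A₀ hA₀ hc hA₁ using hA
  have hi : ∀ τ : T, ∀ b : A₀ τ, ∃ i₀ : ι,
      {g : {f : X → ℝ // Continuous f} | ∀ i, g.1 (b.1 i) ∈ (τ.2 i : Set ℝ)} ⊆ U i₀ :=
    fun τ b => (hA₀ τ b.2).2
  choose i₀ hi₀ using hi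
  refine ⟨⋃ τ : T, Set.range (i₀ τ), ?_, ?_⟩
  · apply Set.countable_iUnion
    intro τ
    have := (hc τ).to_subtype
    exact Set.countable_range _
  · intro f hf
    obtain ⟨j, hj⟩ := Set.mem_iUnion.1 (hS hf)
    obtain ⟨m, J, a, ha, hJ, hsub⟩ := local_box f (U j) (hU j) hj
    obtain ⟨b, hb, hb'⟩ := hA₁ ⟨m, J⟩ f.1 f.2 (fun i => (J i : Set ℝ))
      (fun i => isOpen_of_mem_countableBasis (J i).2) a ⟨ha, j, hsub⟩ hJ
    refine Set.mem_biUnion (Set.mem_iUnion.2 ⟨⟨m, J⟩, ⟨⟨b, hb⟩, rfl⟩⟩) ?_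
    exact hi₀ ⟨m, J⟩ ⟨b, hb⟩ hb'


theorem perfectlyNormal {X : Type} [TopologicalSpace X]
    (h : ∀ (m : ℕ) (A : Set (Fin m → X)), (∀ a ∈ A, Function.Injective a) →
    ∃ A₀ ⊆ A, A₀.Countable ∧ ∀ f : X → ℝ, Continuous f → ∀ J : Fin m → Set ℝ,
      (∀ i, IsOpen (J i)) → ∀ a ∈ A, (∀ i, f (a i) ∈ J i) → ∃ b ∈ A₀, ∀ i, f (b i) ∈ J i) :
    NormalSpace {f : X → ℝ // Continuous f} ∧
        ∀ s : Set {f : X → ℝ // Continuous f}, IsClosed s → IsGδ s := by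
  have hL := hLind h
  refine ⟨inferInstance, fun s hs => ?_⟩
  have h1 : IsLindelof sᶜ := HereditarilyLindelofSpace.isLindelof _
  have h2 : ∀ f : {f : X → ℝ // Continuous f}, ∃ K : Set {f : X → ℝ // Continuous f},
      f ∈ sᶜ → (K ∈ 𝓝 f ∧ IsClosed K ∧ K ⊆ sᶜ) := by
    intro f
    by_cases hf : f ∈ sᶜ
    · obtain ⟨K, hK1, hK2, hK3⟩ := exists_mem_nhds_isClosed_subset (hs.isOpen_compl.mem_nhds hf)
      exact ⟨K, fun _ => ⟨hK1, hK2, hK3⟩⟩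
    · exact ⟨∅, fun h => absurd h hf⟩
  choose K hK using h2
  obtain ⟨t, htc, hts, hcov⟩ := h1.elim_nhds_subcover K (fun f hf => (hK f hf).1)
  have h3 : s = ⋂ f ∈ t, (K f)ᶜ := by
    apply Set.Subset.antisymm
    · intro g hg
      simp only [Set.mem_iInter, Set.mem_compl_iff]
      intro f hf hgK
      exact (hK f (hts f hf)).2.2 hgK hg
    · intro g hg
      by_contra hgs
      obtain ⟨f, hf, hgK⟩ := Set.mem_iUnion₂.1 (hcov hgs)
      exact (Set.mem_iInter₂.1 hg f hf) hgK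
  rw [h3]
  exact IsGδ.biInter_of_isOpen htc (fun f hf => (hK f (hts f hf)).2.1.isOpen_compl)



end Pool.Agent.Helper47.CP
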