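import Pool.Agent.Helper47.CP.Gen

set_option autoImplicit false

namespace Pool.Agent.Helper47.CP

open Set Topology Cardinal TopologicalSpace

open MeasureTheory ProbabilityTheory in
theorem box_9723 {I : Type} {ι : Type*} (V : ι → Set (I → ℝ)) (hV : ∀ i, IsOpen (V i))
    (hne : ∀ i, (V i).Nonempty) (hd : Pairwise (Function.onFun Disjoint V)) : Countable ι := by
  have h1 : ∀ i, ∃ (J : Finset I) (u : I → Set ℝ),
      (∀ a ∈ J, IsOpen (u a) ∧ (u a).Nonempty) ∧ (J : Set I).pi u ⊆ V i := by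
    intro i
    obtain ⟨f, hf⟩ := hne i
    obtain ⟨J, u, hu, hJ⟩ := isOpen_pi_iff.mp (hV i) f hf
    exact ⟨J, u, fun a ha => ⟨(hu a ha).1, ⟨f a, (hu a ha).2⟩⟩, hJ⟩
  choose J u hu hJ using h1
  have h2 : ∀ i, 0 < Measure.infinitePi (fun _ : I => gaussianReal 0 1)
      ((J i : Set I).pi (u i)) := by
    intro i
    rw [Measure.infinitePi_pi _ (fun a ha => (hu i a ha).1.measurableSet)]
    rw [pos_iff_ne_zero, Finset.prod_ne_zero_iff]
    intro a ha h0
    have h3 : (volume : Measure ℝ) (u i a) = 0 :=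
      gaussianReal_absolutelyContinuous' 0 (v := 1) one_ne_zero h0
    exact (hu i a ha).2.ne_empty ((IsOpen.measure_eq_zero_iff (volume : Measure ℝ)
      (hu i a ha).1).mp h3)
  have h3 := Measure.countable_meas_pos_of_disjoint_iUnion
    (μ := Measure.infinitePi (fun _ : I => gaussianReal 0 1))
    (As := fun i => (J i : Set I).pi (u i))
    (fun i => MeasurableSet.pi (Finset.countable_toSet _) fun a ha => (hu i a ha).1.measurableSet)
    (fun i j hij => (hd hij).mono (hJ i) (hJ j))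
  have h4 : {i | 0 < Measure.infinitePi (fun _ : I => gaussianReal 0 1)
      ((J i : Set I).pi (u i))} = Set.univ := Set.eq_univ_of_forall h2
  rw [h4] at h3
  exact Set.countable_univ_iff.mp h3

theorem interp_9723 {X : Type} [TopologicalSpace X] [T35Space X] (K : Finset X) (v : X → ℝ) :
    ∃ f : X → ℝ, Continuous f ∧ ∀ x ∈ K, f x = v x := by
  classical
  have h1 : ∀ x : X, ∃ g : X → unitInterval, Continuous g ∧ g x = 0 ∧
      Set.EqOn g 1 ((K.erase x : Finset X) : Set X) := by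
    intro x
    exact CompletelyRegularSpace.completely_regular x _ (Finset.finite_toSet _).isClosed
      (by simp)
  choose g hg hgx hgK using h1
  refine ⟨fun y => ∑ x ∈ K, v x * (1 - (g x y : ℝ)), ?_, ?_⟩
  · apply continuous_finsetSum
    intro x _
    exact continuous_const.mul (continuous_const.sub (continuous_subtype_val.comp (hg x)))
  · intro y hy
    beta_reduce
    rw [Finset.sum_eq_single y]
    · rw [hgx]; simp
    · intro x hx hxy
      have h2 : g x y = 1 := hgK x (by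
        rw [Finset.mem_coe, Finset.mem_erase]; exact ⟨hxy.symm, hy⟩)
      rw [h2]; simp
    · intro h; exact absurd hy h

theorem ccc {X : Type} [TopologicalSpace X] [T35Space X]
    (𝒰 : Set (Set ({f : X → ℝ // Continuous f} × {f : X → ℝ // Continuous f})))
    (ho : ∀ U ∈ 𝒰, IsOpen U) (hne : ∀ U ∈ 𝒰, U.Nonempty) (hd : 𝒰.PairwiseDisjoint id) :
    𝒰.Countable := by
  classical
  let Φ : {f : X → ℝ // Continuous f} × {f : X → ℝ // Continuous f} → (X ⊕ X → ℝ) :=
    fun p => Sum.elim p.1.1 p.2.1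
  have hind : IsInducing Φ := by
    have h1 : IsInducing (fun p : {f : X → ℝ // Continuous f} × {f : X → ℝ // Continuous f} =>
        (p.1.1, p.2.1)) := IsInducing.prodMap IsInducing.subtypeVal IsInducing.subtypeVal
    have h2 : IsInducing (fun p : (X → ℝ) × (X → ℝ) => (Sum.elim p.1 p.2 : X ⊕ X → ℝ)) :=
      (Homeomorph.sumArrowHomeomorphProdArrow (X := ℝ) (ι := X) (ι' := X)).symm.isInducing
    exact h2.comp h1
  have hdense : DenseRange Φ := by
    rw [DenseRange, dense_iff_inter_open]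
    rintro V hV ⟨w, hw⟩
    obtain ⟨J, u, hu, hJ⟩ := isOpen_pi_iff.mp hV w hw
    obtain ⟨f, hf, hfv⟩ := interp_9723 (J.preimage Sum.inl Sum.inl_injective.injOn)
      (fun x => w (Sum.inl x))
    obtain ⟨g, hg, hgv⟩ := interp_9723 (J.preimage Sum.inr Sum.inr_injective.injOn)
      (fun x => w (Sum.inr x))
    refine ⟨Φ (⟨f, hf⟩, ⟨g, hg⟩), hJ ?_, ⟨_, rfl⟩⟩
    rintro (a | a) ha
    · show f a ∈ _
      rw [hfv a (by rw [Finset.mem_preimage]; exact ha)]
      exact (hu _ ha).2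
    · show g a ∈ _
      rw [hgv a (by rw [Finset.mem_preimage]; exact ha)]
      exact (hu _ ha).2
  have h1 : ∀ U : 𝒰, ∃ V : Set (X ⊕ X → ℝ), IsOpen V ∧ Φ ⁻¹' V = U.1 := fun U =>
    hind.isOpen_iff.mp (ho U.1 U.2)
  choose V hV hVU using h1
  refine box_9723 V hV ?_ ?_
  · intro U
    obtain ⟨p, hp⟩ := hne U.1 U.2
    rw [← hVU U] at hp
    exact ⟨Φ p, hp⟩
  · intro U U' hUU
    rw [Function.onFun, Set.disjoint_iff_inter_eq_empty]
    by_contra hcon
    obtain ⟨y, hy, p, rfl⟩ := dense_iff_inter_open.mp hdense _ ((hV U).inter (hV U'))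
      (Set.nonempty_iff_ne_empty.mpr hcon)
    have h2 : p ∈ U.1 := by rw [← hVU U]; exact hy.1
    have h3 : p ∈ U'.1 := by rw [← hVU U']; exact hy.2
    have h4 : (U.1 : Set _) ≠ U'.1 := fun h => hUU (Subtype.ext h)
    exact Set.disjoint_left.mp (hd U.2 U'.2 h4) h2 h3



section
variable {X : Type} [TopologicalSpace X]

abbrev ev (z : {f : X → ℝ // Continuous f} × {f : X → ℝ // Continuous f}) (x : X) (b : Bool) : ℝ :=
  cond b (z.1.1 x) (z.2.1 x)

def box (L : List (X × Bool × ℚ × ℚ)) :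
    Set ({f : X → ℝ // Continuous f} × {f : X → ℝ // Continuous f}) :=
  {z | ∀ q ∈ L, (q.2.2.1 : ℝ) < ev z q.1 q.2.1 ∧ ev z q.1 q.2.1 < q.2.2.2}

theorem continuous_ev (x : X) (b : Bool) : Continuous
    fun z : {f : X → ℝ // Continuous f} × {f : X → ℝ // Continuous f} => ev z x b := by
  cases b
  · exact (continuous_apply x).comp (continuous_subtype_val.comp continuous_snd)
  · exact (continuous_apply x).comp (continuous_subtype_val.comp continuous_fst)

theorem isOpen_box (L : List (X × Bool × ℚ × ℚ)) : IsOpen (box L) := by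
  have : box L = ⋂ q ∈ {q | q ∈ L}, {z | (q.2.2.1 : ℝ) < ev z q.1 q.2.1 ∧ ev z q.1 q.2.1 < q.2.2.2} := by
    ext z; simp [box]
  rw [this]
  refine (List.finite_toSet L).isOpen_biInter fun q _ => ?_
  exact (isOpen_lt continuous_const (continuous_ev _ _)).inter
    (isOpen_lt (continuous_ev _ _) continuous_const)

theorem nhds_one (f : {f : X → ℝ // Continuous f}) (U : Set {f : X → ℝ // Continuous f})
    (hU : U ∈ 𝓝 f) : ∃ L : List (X × ℚ × ℚ), (∀ q ∈ L, (q.2.1 : ℝ) < f.1 q.1 ∧ f.1 q.1 < q.2.2) ∧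
      ∀ g : {f : X → ℝ // Continuous f}, (∀ q ∈ L, (q.2.1 : ℝ) < g.1 q.1 ∧ g.1 q.1 < q.2.2) →
        g ∈ U := by
  classical
  rw [nhds_induced, Filter.mem_comap] at hU
  obtain ⟨V, hV, hVU⟩ := hU
  rw [nhds_pi, Filter.mem_pi] at hV
  obtain ⟨I, hI, t, ht, hIt⟩ := hV
  have h1 : ∀ i, ∃ p : ℚ × ℚ, (p.1 : ℝ) < f.1 i ∧ f.1 i < p.2 ∧ Ioo (p.1 : ℝ) p.2 ⊆ t i := by
    intro i
    obtain ⟨a, b, hab, hsub⟩ := mem_nhds_iff_exists_Ioo_subset.1 (ht i)
    obtain ⟨p, hp1, hp2⟩ := exists_rat_btwn hab.1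
    obtain ⟨q, hq1, hq2⟩ := exists_rat_btwn hab.2
    exact ⟨(p, q), hp2, hq1, (Ioo_subset_Ioo hp1.le hq2.le).trans hsub⟩
  choose p hp1 hp2 hp3 using h1
  refine ⟨(hI.toFinset.toList).map fun i => (i, p i), ?_, ?_⟩
  · intro q hq
    simp only [List.mem_map, Finset.mem_toList, Finite.mem_toFinset] at hq
    obtain ⟨i, hi, rfl⟩ := hq
    exact ⟨hp1 i, hp2 i⟩
  · intro g hg
    apply hVU
    show g.1 ∈ V
    apply hIt
    intro i hi
    apply hp3
    exact hg (i, p i) (by simp [hi])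

theorem nhds_two (z : {f : X → ℝ // Continuous f} × {f : X → ℝ // Continuous f})
    (U : Set ({f : X → ℝ // Continuous f} × {f : X → ℝ // Continuous f}))
    (hU : U ∈ 𝓝 z) : ∃ L : List (X × Bool × ℚ × ℚ), z ∈ box L ∧ box L ⊆ U := by
  obtain ⟨U1, hU1, U2, hU2, h⟩ := mem_nhds_prod_iff.1 hU
  obtain ⟨L1, h1, h1'⟩ := nhds_one z.1 U1 hU1
  obtain ⟨L2, h2, h2'⟩ := nhds_one z.2 U2 hU2
  refine ⟨L1.map (fun q => (q.1, true, q.2)) ++ L2.map (fun q => (q.1, false, q.2)), ?_, ?_⟩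
  · intro q hq
    simp only [List.mem_append, List.mem_map] at hq
    rcases hq with ⟨q, hq, rfl⟩ | ⟨q, hq, rfl⟩
    · exact h1 q hq
    · exact h2 q hq
  · intro w hw
    apply h
    refine ⟨h1' _ fun q hq => ?_, h2' _ fun q hq => ?_⟩
    · exact hw (q.1, true, q.2) (by simp only [List.mem_append, List.mem_map]; exact Or.inl ⟨q, hq, rfl⟩)
    · exact hw (q.1, false, q.2) (by simp only [List.mem_append, List.mem_map]; exact Or.inr ⟨q, hq, rfl⟩)

theorem exists_seq [T35Space X]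
    (U : Set ({f : X → ℝ // Continuous f} × {f : X → ℝ // Continuous f})) (hU : IsOpen U) :
    ∃ u : ℕ → Option (List (X × Bool × ℚ × ℚ)),
      closure U = closure {z | ∃ n L, u n = some L ∧ z ∈ box L} := by
  let S : Set (Set (List (X × Bool × ℚ × ℚ))) :=
    {𝒲 | (∀ L ∈ 𝒲, (box L).Nonempty ∧ box L ⊆ U) ∧ 𝒲.PairwiseDisjoint box}
  obtain ⟨𝒲, hmax⟩ := zorn_subset S (by
    intro c hcS hc
    refine ⟨⋃₀ c, ⟨?_, ?_⟩, fun s hs => subset_sUnion_of_mem hs⟩
    · rintro L ⟨s, hs, hL⟩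
      exact (hcS hs).1 L hL
    · exact (pairwiseDisjoint_sUnion hc.directedOn).2 fun s hs => (hcS hs).2)
  have hW : 𝒲 ∈ S := hmax.prop
  have hinj : InjOn box 𝒲 := by
    intro a ha b hb hab
    by_contra hne
    have := hW.2 ha hb hne
    simp only [Function.onFun] at this
    rw [hab, disjoint_self] at this
    exact (hW.1 b hb).1.ne_empty this
  have hcount : 𝒲.Countable := by
    refine countable_of_injective_of_countable_image hinj (ccc _ ?_ ?_ ?_)
    · rintro _ ⟨L, hL, rfl⟩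
      exact isOpen_box L
    · rintro _ ⟨L, hL, rfl⟩
      exact (hW.1 L hL).1
    · rintro _ ⟨L, hL, rfl⟩ _ ⟨L', hL', rfl⟩ hne
      exact hW.2 hL hL' fun h => hne (by rw [h])
  obtain ⟨u, hu⟩ : ∃ u : ℕ → Option (List (X × Bool × ℚ × ℚ)), ∀ L, L ∈ 𝒲 ↔ ∃ n, u n = some L := by
    rcases 𝒲.eq_empty_or_nonempty with h | hne
    · exact ⟨fun _ => none, by simp [h]⟩
    · obtain ⟨v, hv⟩ := hcount.exists_eq_range hne
      exact ⟨fun n => some (v n), fun L => by simp [hv]⟩
  refine ⟨u, subset_antisymm ?_ ?_⟩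
  · apply closure_minimal _ isClosed_closure
    intro z hz
    by_contra hcon
    obtain ⟨L, hzL, hL⟩ := nhds_two z (U ∩ (closure {z | ∃ n L, u n = some L ∧ z ∈ box L})ᶜ)
      ((hU.inter isClosed_closure.isOpen_compl).mem_nhds ⟨hz, hcon⟩)
    have hins : insert L 𝒲 ∈ S := by
      refine ⟨?_, ?_⟩
      · rintro L' (rfl | hL')
        · exact ⟨⟨z, hzL⟩, hL.trans inter_subset_left⟩
        · exact hW.1 L' hL'
      · rw [pairwiseDisjoint_insert]
        refine ⟨hW.2, fun L' hL' _ => ?_⟩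
        rw [disjoint_left]
        intro w hw hw'
        obtain ⟨n, hn⟩ := (hu L').1 hL'
        exact (hL hw).2 (subset_closure ⟨n, L', hn, hw'⟩)
    have hmem : L ∈ 𝒲 := hmax.le_of_ge hins (subset_insert _ _) (mem_insert _ _)
    obtain ⟨n, hn⟩ := (hu L).1 hmem
    exact hcon (subset_closure ⟨n, L, hn, hzL⟩)
  · apply closure_mono
    rintro z ⟨n, L, hn, hz⟩
    exact (hW.1 L ((hu L).2 ⟨n, hn⟩)).2 hz

end

/-- closures of open sets are coded by elements of a set of size at most continuum -/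
theorem code_closure {X : Type} [TopologicalSpace X] [T35Space X] (hX : #X ≤ 𝔠) :
    ∃ c : Set ({f : X → ℝ // Continuous f} × {f : X → ℝ // Continuous f}) → (ℕ → ℝ),
      ∀ U V, IsOpen U → IsOpen V → c U = c V → closure U = closure V := by
  classical
  have h1 : #(X × Bool × ℚ × ℚ) ≤ 𝔠 := by
    simp only [mk_prod, lift_id, mk_bool, mk_eq_aleph0 ℚ]
    have h2 : (2 : Cardinal.{0}) * (ℵ₀ * ℵ₀) ≤ 𝔠 := by
      refine (mul_le_mul' (nat_lt_continuum 2).le
        (mul_le_mul' aleph0_le_continuum aleph0_le_continuum)).trans ?_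
      rw [continuum_mul_self, continuum_mul_self]
    exact (mul_le_mul' hX h2).trans continuum_mul_self.le
  have h2 : #(List (X × Bool × ℚ × ℚ)) ≤ 𝔠 :=
    (mk_list_le_max _).trans (max_le aleph0_le_continuum h1)
  have h3 : #(Option (List (X × Bool × ℚ × ℚ))) ≤ 𝔠 := by
    rw [mk_option]
    exact (add_le_add h2 (one_le_aleph0.trans aleph0_le_continuum)).trans
      continuum_add_self.le
  have h4 : #(ℕ → Option (List (X × Bool × ℚ × ℚ))) ≤ #(ℕ → ℝ) := by
    calc #(ℕ → Option (List (X × Bool × ℚ × ℚ))) = #(Option (List (X × Bool × ℚ × ℚ))) ^ ℵ₀ := by simp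
      _ ≤ 𝔠 ^ ℵ₀ := power_le_power_right h3
      _ = #(ℕ → ℝ) := by simp [mk_real]
  obtain ⟨j⟩ := h4
  have h5 : ∀ U : Set ({f : X → ℝ // Continuous f} × {f : X → ℝ // Continuous f}),
      ∃ u : ℕ → Option (List (X × Bool × ℚ × ℚ)), IsOpen U →
      closure U = closure {z | ∃ n L, u n = some L ∧ z ∈ box L} := by
    intro U
    by_cases hU : IsOpen U
    · obtain ⟨u, hu⟩ := exists_seq U hU
      exact ⟨u, fun _ => hu⟩
    · exact ⟨fun _ => none, fun h => absurd h hU⟩
  choose u hu using h5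
  refine ⟨fun U => j (u U), fun U V hU hV h => ?_⟩
  have h6 := j.injective h
  rw [hu U hU, hu V hV, h6]


theorem not_perfect {X : Type} [TopologicalSpace X] [T35Space X] (CH : ℵ₁ = 𝔠) (hX : #X ≤ 𝔠)
    (G : Om → ({f : X → ℝ // Continuous f} × {f : X → ℝ // Continuous f}))
    (W : Om → Set ({f : X → ℝ // Continuous f} × {f : X → ℝ // Continuous f}))
    (ho : ∀ α, IsOpen (W α)) (hG : ∀ α β, G α ∈ W β ↔ α = β) :
    ¬ (NormalSpace ({f : X → ℝ // Continuous f} × {f : X → ℝ // Continuous f}) ∧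
        ∀ s : Set ({f : X → ℝ // Continuous f} × {f : X → ℝ // Continuous f}),
          IsClosed s → IsGδ s) := by
  classical
  rintro ⟨hN, hP⟩
  have hU : IsOpen (⋃ α, W α) := isOpen_iUnion ho
  obtain ⟨F, hFo, hF⟩ := (hP (⋃ α, W α)ᶜ hU.isClosed_compl).eq_iInter_nat
  have hGU : ∀ α, G α ∈ ⋃ α, W α := fun α => mem_iUnion.2 ⟨α, (hG α α).2 rfl⟩
  have hcov : ∀ α, ∃ n, G α ∈ (F n)ᶜ := by
    intro α
    by_contra hcon
    push Not at hcon
    have h1 : G α ∈ (⋃ α, W α)ᶜ := by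
      rw [hF]
      exact mem_iInter.2 (fun n => not_not.1 (hcon n))
    exact h1 (hGU α)
  choose n hn using hcov
  have hunc : ∃ k, ¬ (n ⁻¹' {k}).Countable := by
    by_contra hcon
    push Not at hcon
    have h1 : (univ : Set Om).Countable := by
      have : (univ : Set Om) = ⋃ k, n ⁻¹' {k} := by ext; simp
      rw [this]; exact countable_iUnion hcon
    have h2 : #Om ≤ ℵ₀ := by
      rw [← mk_univ]
      exact le_aleph0_iff_set_countable.2 h1
    rw [mk_Om] at h2
    exact absurd h2 (not_le.2 aleph0_lt_aleph_one)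
  obtain ⟨k, hk⟩ := hunc
  set S := n ⁻¹' {k} with hS
  have hGinj : Function.Injective G := by
    intro α β h
    exact (hG α β).1 (by rw [h]; exact (hG β β).2 rfl)
  have hclosed : ∀ S' ⊆ S, IsClosed (G '' S') := by
    intro S' hS'
    rw [← closure_subset_iff_isClosed]
    intro p hp
    have h1 : G '' S' ⊆ (F k)ᶜ := by
      rintro _ ⟨α, hα, rfl⟩
      have h2 := hn α
      have h3 : n α = k := hS' hα
      rw [h3] at h2
      exact h2
    have h2 : p ∈ (F k)ᶜ := (closure_minimal h1 (hFo k).isClosed_compl) hp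
    have h3 : p ∈ ⋃ α, W α := by
      by_contra h
      have h4 : p ∈ (⋃ α, W α)ᶜ := h
      rw [hF] at h4
      exact h2 (mem_iInter.1 h4 k)
    obtain ⟨β, hβ⟩ := mem_iUnion.1 h3
    have h4 : p ∈ closure (W β ∩ G '' S') := (ho β).inter_closure ⟨hβ, hp⟩
    have h5 : W β ∩ G '' S' ⊆ {G β} ∩ G '' S' := by
      rintro _ ⟨hx, α, hα, rfl⟩
      have h6 := (hG α β).1 hx
      exact ⟨by rw [h6]; rfl, α, hα, rfl⟩
    have h6 := closure_mono h5 h4
    have h7 : IsClosed ({G β} ∩ G '' S') :=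
      ((finite_singleton (G β)).subset inter_subset_left).isClosed
    rw [h7.closure_eq] at h6
    exact h6.2
  have hV : ∀ A : Set S, ∃ V, IsOpen V ∧ G '' (Subtype.val '' A) ⊆ V ∧
      closure V ⊆ (G '' (S \ (Subtype.val '' A)))ᶜ := by
    intro A
    have hA : (Subtype.val '' A : Set Om) ⊆ S := by
      rintro _ ⟨x, _, rfl⟩; exact x.2
    apply normal_exists_closure_subset (hclosed _ hA) (hclosed _ (fun x hx => hx.1)).isOpen_compl
    rintro _ ⟨α, hα, rfl⟩ ⟨β, hβ, hαβ⟩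
    rw [hGinj hαβ] at hβ
    exact hβ.2 hα
  choose V hVo hVs hVc using hV
  obtain ⟨c, hc⟩ := code_closure (X := X) hX
  have hinj : Function.Injective (fun A : Set S => c (V A)) := by
    have key : ∀ A B : Set S, c (V A) = c (V B) → A ⊆ B := by
      intro A B h x hx
      have h1 := hc _ _ (hVo A) (hVo B) h
      have h2 : G x ∈ closure (V B) := by
        rw [← h1]
        exact subset_closure (hVs A ⟨x, ⟨x, hx, rfl⟩, rfl⟩)
      have h3 := hVc B h2
      by_contra hxB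
      apply h3
      refine ⟨x, ⟨x.2, ?_⟩, rfl⟩
      rintro ⟨y, hy, hyx⟩
      exact hxB (Subtype.ext hyx ▸ hy)
    intro A B h
    exact Subset.antisymm (key A B h) (key B A h.symm)
  have h1 : #(Set S) ≤ #(ℕ → ℝ) := mk_le_of_injective hinj
  have h2 : #(ℕ → ℝ) = 𝔠 := by
    rw [← power_def, mk_real, mk_nat, continuum_power_aleph0]
  have h3 : ℵ₁ ≤ #S := by
    rw [← succ_aleph0]
    apply Order.succ_le_of_lt
    by_contra h
    exact hk (le_aleph0_iff_set_countable.1 (not_lt.1 h))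
  have CH0 : (ℵ₁ : Cardinal.{0}) = 𝔠 := by
    have h4 := congrArg (Cardinal.lift.{0}) CH
    apply Cardinal.lift_injective.{_, 0}
    simpa using CH
  rw [h2, ← CH0, mk_set] at h1
  exact absurd (h1.trans h3) (not_le.2 (cantor _))



end Pool.Agent.Helper47.CP
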