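import Pool.Agent.Helper47.CP.Step
import Pool.Agent.Helper47.CP.Space
import Pool.Agent.Helper47.CP.Perf
import Pool.Agent.Helper47.CP.Square
import Pool.Agent.Helper47.CP.Conf

set_option autoImplicit false

namespace Pool.Agent.Helper47.CP

open Set Topology Cardinal TopologicalSpace

theorem main (CH : (ℵ₁ : Cardinal.{0}) = 𝔠) :
    ∃ (X : Type) (_ : TopologicalSpace X) (_ : T35Space X),
      (NormalSpace {f : X → ℝ // Continuous f} ∧
        ∀ s : Set {f : X → ℝ // Continuous f}, IsClosed s → IsGδ s) ∧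
      ¬ (NormalSpace ({f : X → ℝ // Continuous f} × {f : X → ℝ // Continuous f}) ∧
        ∀ s : Set ({f : X → ℝ // Continuous f} × {f : X → ℝ // Continuous f}),
          IsClosed s → IsGδ s) := by
  obtain ⟨r, hr⟩ := exists_r
  obtain ⟨E, hE⟩ := exists_enum CH
  obtain ⟨F, hF⟩ := exists_F r hr E
  obtain ⟨τ, hS⟩ := exists_spc r hr E F hF
  have := hS.t35
  refine ⟨Pt, τ, hS.t35, perfectlyNormal fun m A hA => conf_dense r hr E hE F hS m A hA, ?_⟩
  refine not_perfect CH mk_Pt_le
    (fun α => (⟨fun x => (F α x).1, continuous_fst.comp (hS.cont α)⟩,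
      ⟨fun x => (F α x).2, continuous_snd.comp (hS.cont α)⟩))
    (fun β => {p | ∀ k, (p.1.1 ⟨β, e k⟩, p.2.1 ⟨β, e k⟩) ∈ N k}) ?_ ?_
  · intro β
    have h1 : {p : {f : Pt → ℝ // Continuous f} × {f : Pt → ℝ // Continuous f} |
        ∀ k, (p.1.1 ⟨β, e k⟩, p.2.1 ⟨β, e k⟩) ∈ N k} =
        ⋂ k, (fun p : {f : Pt → ℝ // Continuous f} × {f : Pt → ℝ // Continuous f} =>
          ((p.1.1 ⟨β, e k⟩, p.2.1 ⟨β, e k⟩) : T)) ⁻¹' N k := by
      ext p; simp
    rw [h1]
    refine isOpen_iInter_of_finite fun k => (isOpen_N k).preimage ?_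
    refine Continuous.prodMk ?_ ?_
    · exact (continuous_apply _).comp (continuous_subtype_val.comp continuous_fst)
    · exact (continuous_apply _).comp (continuous_subtype_val.comp continuous_snd)
  · intro α β
    constructor
    · intro h
      by_contra hne
      obtain ⟨k, hk⟩ := hS.off α β hne
      exact hk _ (h k)
    · rintro rfl k
      simpa [hS.diag] using e_mem k

end Pool.Agent.Helper47.CP
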