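import Pool.Agent.Helper47.CP.Defs

set_option autoImplicit false

namespace Pool.Agent.Helper47.CP

open Set Topology Cardinal TopologicalSpace

/-! ### A: plane -/
theorem isOpen_N (k : Fin 3) : IsOpen (N k) := by
  fin_cases k
  · exact isOpen_lt (by fun_prop) (by fun_prop)
  · exact isOpen_lt (by fun_prop) (by fun_prop)
  · exact isOpen_lt (by fun_prop) (by fun_prop)

theorem continuous_rho (k : Fin 3) : Continuous (rho k) := by
  fin_cases k
  · show Continuous fun x : T => ((min x.1 (1 + |x.2|), x.2) : T)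
    fun_prop
  · show Continuous fun x : T => ((max x.1 (-1 - |x.2|), x.2) : T)
    fun_prop
  · show Continuous fun x : T => ((x.1, min x.2 (1 + |x.1|)) : T)
    fun_prop

theorem rho_notMem (k : Fin 3) (x : T) : rho k x ∉ N k := by
  fin_cases k <;> simp [rho, N]

theorem rho_eq (k : Fin 3) (x : T) (h : x ∉ N k) : rho k x = x := by
  fin_cases k <;> simp [rho, N] at h ⊢ <;> ext <;> simp <;> linarith

theorem e_mem (k : Fin 3) : e k ∈ N k := by
  fin_cases k <;> simp [e, N]

theorem zero_notMem (k : Fin 3) : (0 : T) ∉ N k := by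
  fin_cases k <;> simp [N]

theorem N_disj (x : T) (j k : Fin 3) (hj : x ∈ N j) (hk : x ∈ N k) : j = k := by
  have h1 := abs_nonneg x.1
  have h2 := abs_nonneg x.2
  have h3 := le_abs_self x.1
  have h4 := le_abs_self x.2
  have h5 := neg_le_abs x.1
  have h6 := neg_le_abs x.2
  fin_cases j <;> fin_cases k <;> simp [N] at hj hk ⊢ <;> linarith

theorem pick {ι : Type} (I : Finset ι) (t : ι → T) (J : ι → Set ℝ) (hJ : ∀ i ∈ I, IsOpen (J i))
    (g : T → ℝ) (hg : Continuous g) (h : ∀ i ∈ I, g (t i) ∈ J i) :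
    ∃ k : Fin 3, ∃ s : ι → ℕ, ∀ i ∈ I, g (rho k (dd (s i))) ∈ J i := by
  classical
  rcases I.eq_empty_or_nonempty with rfl | hI
  · exact ⟨0, fun _ => 0, by simp⟩
  obtain ⟨i0, hi0, hmin⟩ := I.exists_min_image (fun i => g (t i)) hI
  obtain ⟨i1, hi1, hmax⟩ := I.exists_max_image (fun i => g (t i)) hI
  have hk : ∃ k : Fin 3, t i0 ∉ N k ∧ t i1 ∉ N k := by
    by_contra hcon
    push Not at hcon
    have key : ∀ k, t i0 ∈ N k ∨ t i1 ∈ N k := fun k => by
      by_cases h0 : t i0 ∈ N k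
      · exact Or.inl h0
      · exact Or.inr (hcon k h0)
    have a01 : (0 : Fin 3) ≠ 1 := by decide
    have a02 : (0 : Fin 3) ≠ 2 := by decide
    have a12 : (1 : Fin 3) ≠ 2 := by decide
    rcases key 0 with h0 | h0 <;> rcases key 1 with h1 | h1 <;> rcases key 2 with h2 | h2
    · exact a01 (N_disj _ _ _ h0 h1)
    · exact a01 (N_disj _ _ _ h0 h1)
    · exact a02 (N_disj _ _ _ h0 h2)
    · exact a12 (N_disj _ _ _ h1 h2)
    · exact a12 (N_disj _ _ _ h1 h2)
    · exact a02 (N_disj _ _ _ h0 h2)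
    · exact a01 (N_disj _ _ _ h0 h1)
    · exact a01 (N_disj _ _ _ h0 h1)
  obtain ⟨k, hk0, hk1⟩ := hk
  have hpre : (range fun u => g (rho k u)).OrdConnected := by
    have : IsPreconnected (range fun u => g (rho k u)) :=
      isPreconnected_range (hg.comp (continuous_rho k))
    exact this.ordConnected
  have hs : ∀ i ∈ I, ∃ n, g (rho k (dd n)) ∈ J i := by
    intro i hi
    have hmem : g (t i) ∈ range fun u => g (rho k u) := by
      refine hpre.out ⟨t i0, ?_⟩ ⟨t i1, ?_⟩ ⟨hmin i hi, hmax i hi⟩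
      · simp [rho_eq k _ hk0]
      · simp [rho_eq k _ hk1]
    obtain ⟨u, hu⟩ := hmem
    have hopen : IsOpen {u | g (rho k u) ∈ J i} :=
      (hJ i hi).preimage (hg.comp (continuous_rho k))
    obtain ⟨x, hx, n, rfl⟩ := (denseRange_denseSeq T).exists_mem_open hopen
      ⟨u, by simpa [hu] using h i hi⟩ |>.elim fun n hn => (⟨_, hn, n, rfl⟩ : ∃ x ∈ {u | g (rho k u) ∈ J i}, ∃ n, denseSeq T n = x)
    exact ⟨n, hx⟩
  choose! s hs' using hs
  exact ⟨k, s, hs'⟩

theorem interp {ι : Type} (I : Finset ι) (t s : ι → T) (hinj : Set.InjOn t I) :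
    ∃ φ : T → T, Continuous φ ∧ ∀ i ∈ I, φ (t i) = s i := by
  classical
  refine ⟨fun x => ∑ i ∈ I, (∏ j ∈ I.erase i, ‖x - t j‖ / ‖t i - t j‖) • s i, ?_, ?_⟩
  · refine continuous_finsetSum _ fun i _ => ?_
    have h1 : Continuous fun x : T => ∏ j ∈ I.erase i, ‖x - t j‖ / ‖t i - t j‖ :=
      continuous_finsetProd _ fun j _ => by fun_prop
    exact h1.smul (continuous_const (y := s i))
  · intro i hi
    show ∑ i' ∈ I, (∏ j ∈ I.erase i', ‖t i - t j‖ / ‖t i' - t j‖) • s i' = s i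
    rw [Finset.sum_eq_single_of_mem i hi]
    · rw [Finset.prod_eq_one, one_smul]
      intro j hj
      rw [Finset.mem_erase] at hj
      apply div_self
      rw [norm_ne_zero_iff, sub_ne_zero]
      intro h
      exact hj.1 (hinj hi hj.2 h).symm
    · intro j hj hji
      rw [Finset.prod_eq_zero (Finset.mem_erase.2 ⟨hji.symm, hi⟩) (by simp), zero_smul]

end Pool.Agent.Helper47.CP
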