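import Pool.Agent.Helper47.CP.Plane
import Pool.Agent.Helper47.CP.Gen

set_option autoImplicit false

namespace Pool.Agent.Helper47.CP

open Set Topology Cardinal TopologicalSpace

theorem countable_Iio_9718 (α : Om) : Countable (Iio α) := by
  have h := Cardinal.mk_Iio_toType_ord_lt (c := (ℵ₁ : Cardinal.{0})) α
  exact ((Cardinal.countable_iff_lt_aleph_one (Iio α)).2 h).to_subtype

instance (α : Om) : Countable (Code α) := by
  haveI := countable_Iio_9718 α
  haveI : Countable (countableBasis Mt) := (countable_countableBasis Mt).to_subtype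
  let f : Code α → (Σ m : ℕ, (Iio α × (Fin m → countableBasis Mt) ×
      (Fin m → Option (Iio α × Fin 3 × ℕ)) × Finset (Fin m) × Fin 3 × (Fin m → ℕ))) :=
    fun c => ⟨c.m, c.ζ, c.W, c.h, c.I, c.k, c.s⟩
  have hf : Function.Injective f := by
    rintro ⟨m, ζ, W, h, I, k, s⟩ ⟨m', ζ', W', h', I', k', s'⟩ hc
    simp only [f, Sigma.mk.injEq] at hc
    obtain ⟨rfl, hc⟩ := hc
    simp only [heq_eq_eq, Prod.mk.injEq] at hc
    obtain ⟨rfl, rfl, rfl, rfl, rfl, rfl⟩ := hc
    rfl
  exact hf.countable

theorem good_step (r : Om → ℕ → Bool) (hr : Function.Injective r)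
    (E : ∀ m : ℕ, Om → Set (Fin m → Pt)) (α : Om) (G : Iio α → Pt → T) :
    ∃ y, Good r E α G y := by
  classical
  by_cases hG : ∀ (γ : Iio α) t, G γ ⟨γ, t⟩ = t
  · let L : {c : Code α // Active r E G c} → Set ℕ := fun c =>
      {j | ∃ b ∈ cfg r E G c.1, ∃ γ : Iio α, (∀ i ∈ c.1.I, (b i).fib = γ) ∧
        PiNat.firstDiff (r γ) (r α) = j}
    have hL : ∀ c, (L c).Infinite := by
      intro c
      apply Set.infinite_of_not_bddAbove
      rintro ⟨M, hM⟩
      obtain ⟨b, hb, γ, hγ, hcyl⟩ := c.2 (M + 1)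
      have hne : r γ ≠ r α := fun h => (ne_of_lt γ.2) (hr h)
      rw [PiNat.mem_cylinder_iff_le_firstDiff hne] at hcyl
      have : PiNat.firstDiff (r γ) (r α) ∈ L c := ⟨b, hb, γ, hγ, rfl⟩
      have := hM this
      omega
    obtain ⟨j, hj, hjL⟩ := sdr L hL
    choose b hb γ hγ hjd using hjL
    have hφ : ∀ c : {c : Code α // Active r E G c}, ∃ φ : T → T, Continuous φ ∧
        ∀ i ∈ c.1.I, φ ((b c i).pt) = dd (c.1.s i) := by
      intro c
      apply interp c.1.I (fun i => (b c i).pt) (fun i => dd (c.1.s i))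
      intro i hi i' hi' hii
      apply (hb c).2.1
      have h1 : (b c i).fib = (b c i').fib := by rw [hγ c i hi, hγ c i' hi']
      have h2 : (b c i).pt = (b c i').pt := hii
      cases hb1 : b c i
      cases hb2 : b c i'
      rw [hb1, hb2] at h1 h2
      simp only at h1 h2
      rw [h1, h2]
    choose φ hφc hφi using hφ
    let y : Pt → T := fun p => if p.fib = α then p.pt else
      if h : ∃ c, j c = PiNat.firstDiff (r p.fib) (r α) then
        rho (Classical.choose h).1.k (φ (Classical.choose h) (G (γ (Classical.choose h)) p)) else 0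
    refine ⟨y, ?_, ?_, ?_⟩
    · intro t
      exact if_pos rfl
    · intro j0
      by_cases h : ∃ c, j c = j0
      · right
        refine ⟨γ (Classical.choose h), (Classical.choose h).1.k, φ (Classical.choose h),
          hφc _, ?_⟩
        intro γ' t hne hfd
        subst hfd
        show (if γ' = α then t else if h : ∃ c, j c = PiNat.firstDiff (r γ') (r α) then
          rho (Classical.choose h).1.k
            (φ (Classical.choose h) (G (γ (Classical.choose h)) ⟨γ', t⟩)) else 0) = _
        rw [if_neg hne, dif_pos h]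
      · left
        intro γ' t hne hfd
        subst hfd
        show (if γ' = α then t else if h : ∃ c, j c = PiNat.firstDiff (r γ') (r α) then
          rho (Classical.choose h).1.k
            (φ (Classical.choose h) (G (γ (Classical.choose h)) ⟨γ', t⟩)) else 0) = _
        rw [if_neg hne, dif_neg h]
    · intro _ c hc
      refine ⟨b ⟨c, hc⟩, hb ⟨c, hc⟩, ?_⟩
      intro i hi
      have h1 : (b ⟨c, hc⟩ i).fib = γ ⟨c, hc⟩ := hγ ⟨c, hc⟩ i hi
      have hne : (b ⟨c, hc⟩ i).fib ≠ α := by
        rw [h1]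
        exact ne_of_lt (γ ⟨c, hc⟩).2
      have hex : ∃ c', j c' = PiNat.firstDiff (r (b ⟨c, hc⟩ i).fib) (r α) := by
        refine ⟨⟨c, hc⟩, ?_⟩
        rw [h1]
        exact (hjd ⟨c, hc⟩).symm
      have hch : Classical.choose hex = ⟨c, hc⟩ := by
        apply hj
        rw [Classical.choose_spec hex, h1]
        exact hjd ⟨c, hc⟩
      show (if (b ⟨c, hc⟩ i).fib = α then (b ⟨c, hc⟩ i).pt else
        if h : ∃ c', j c' = PiNat.firstDiff (r (b ⟨c, hc⟩ i).fib) (r α) then
          rho (Classical.choose h).1.k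
            (φ (Classical.choose h) (G (γ (Classical.choose h)) (b ⟨c, hc⟩ i))) else 0) = _
      rw [if_neg hne, dif_pos hex, hch]
      have h2 : G (γ ⟨c, hc⟩) (b ⟨c, hc⟩ i) = (b ⟨c, hc⟩ i).pt := by
        have h3 := hG (γ ⟨c, hc⟩) (b ⟨c, hc⟩ i).pt
        rw [← h1] at h3
        exact h3
      rw [h2, hφi ⟨c, hc⟩ i hi]
  · refine ⟨fun p => if p.fib = α then p.pt else 0, ?_, ?_, ?_⟩
    · intro t
      exact if_pos rfl
    · intro j
      left
      intro γ t hne _
      exact if_neg hne
    · intro h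
      exact absurd h hG



theorem exists_F (r : Om → ℕ → Bool) (hr : Function.Injective r)
    (E : ∀ m : ℕ, Om → Set (Fin m → Pt)) :
    ∃ F : Om → Pt → T, ∀ α, Good r E α (fun β => F β) (F α) :=
  exists_rec _ (good_step r hr E)

end Pool.Agent.Helper47.CP
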